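import Mathlib

/-!
Neighbourhoods of rectifiable curves have small area; negative powers of the distance are integrable.
-/

set_option autoImplicit false

open MeasureTheory Metric Set Filter Topology
open scoped ENNReal

namespace Pool.Agent.J4.H86.CR

/-- area of the neighbourhoods -/
theorem area_nbhd (γ : ℝ → ℂ) (L : NNReal) (hγ : LipschitzWith L γ) : ∃ C : ℝ, 0 ≤ C ∧
    ∀ δ : ℝ, 0 < δ → δ ≤ 1 → volume {z : ℂ | infDist z (γ '' Icc 0 1) ≤ δ} ≤
      ENNReal.ofReal (C * δ) := by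
  set E := γ '' Icc (0:ℝ) 1 with hE
  have hEc : IsCompact E := isCompact_Icc.image hγ.continuous
  have hEne : E.Nonempty := ⟨γ 0, 0, by simp, rfl⟩
  refine ⟨3 * (Real.pi * ((L:ℝ) + 1) ^ 2), by positivity, fun δ hδ hδ1 => ?_⟩
  set N : ℕ := ⌈1 / δ⌉₊ with hN
  have hNδ : 1 / δ ≤ N := Nat.le_ceil _
  have hN0 : (0:ℝ) < N := lt_of_lt_of_le (by positivity) hNδ
  have hN1 : (N:ℝ) + 1 ≤ 3 / δ := by
    have h1 : (N:ℝ) < 1 / δ + 1 := Nat.ceil_lt_add_one (by positivity)
    have h2 : 1 ≤ 1 / δ := by rw [le_div_iff₀ hδ]; linarith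
    have h3 : 3 / δ = 3 * (1 / δ) := by ring
    rw [h3]
    linarith
  have hNinv : 1 / (N:ℝ) ≤ δ := by
    rw [div_le_iff₀ hN0]
    rw [div_le_iff₀ hδ] at hNδ
    linarith
  have hsub : {z : ℂ | infDist z E ≤ δ} ⊆ ⋃ i ∈ Finset.range (N + 1),
      closedBall (γ ((i:ℝ) / N)) (((L:ℝ) + 1) * δ) := by
    intro z hz
    obtain ⟨e, ⟨t, ht, rfl⟩, hed⟩ := hEc.exists_infDist_eq_dist hEne z
    have hz' : dist z (γ t) ≤ δ := by rw [← hed]; exact hz
    set i := ⌊t * N⌋₊ with hi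
    have hi1 : (i:ℝ) ≤ t * N := Nat.floor_le (mul_nonneg ht.1 hN0.le)
    have hi2 : t * N < i + 1 := Nat.lt_floor_add_one _
    have hiN : i ≤ N := by
      have : (i:ℝ) ≤ N := hi1.trans (by nlinarith [ht.2])
      exact_mod_cast this
    simp only [Set.mem_iUnion]
    refine ⟨i, Finset.mem_range.2 (by omega), ?_⟩
    rw [mem_closedBall]
    have h1 : |t - (i:ℝ) / N| ≤ δ := by
      have h2 : t - (i:ℝ) / N = (t * N - i) / N := by field_simp
      rw [h2, abs_div, abs_of_nonneg (by linarith), abs_of_pos hN0]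
      calc (t * N - i) / N ≤ 1 / N := by gcongr; linarith
        _ ≤ δ := hNinv
    calc dist z (γ ((i:ℝ) / N)) ≤ dist z (γ t) + dist (γ t) (γ ((i:ℝ) / N)) := dist_triangle _ _ _
      _ ≤ δ + L * dist t ((i:ℝ) / N) := by
          gcongr
          exact hγ.dist_le_mul _ _
      _ ≤ δ + L * δ := by
          gcongr
          rwa [Real.dist_eq]
      _ = ((L:ℝ) + 1) * δ := by ring
  calc volume {z : ℂ | infDist z E ≤ δ}
      ≤ volume (⋃ i ∈ Finset.range (N + 1), closedBall (γ ((i:ℝ) / N)) (((L:ℝ) + 1) * δ)) :=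
        measure_mono hsub
    _ ≤ ∑ i ∈ Finset.range (N + 1), volume (closedBall (γ ((i:ℝ) / N)) (((L:ℝ) + 1) * δ)) :=
        measure_biUnion_finset_le _ _
    _ = ∑ _i ∈ Finset.range (N + 1), ENNReal.ofReal (Real.pi * (((L:ℝ) + 1) * δ) ^ 2) := by
        refine Finset.sum_congr rfl fun i _ => ?_
        rw [Complex.volume_closedBall, ← ENNReal.ofReal_pow (by positivity), mul_comm,
          ENNReal.ofReal_mul (by positivity)]
        congr 1
        rw [← NNReal.coe_real_pi, ENNReal.ofReal_coe_nnreal]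
    _ = ENNReal.ofReal (((N:ℝ) + 1) * (Real.pi * (((L:ℝ) + 1) * δ) ^ 2)) := by
        rw [Finset.sum_const, Finset.card_range, nsmul_eq_mul,
          ENNReal.ofReal_mul (show 0 ≤ (N:ℝ) + 1 by positivity)]
        congr 1
        rw [ENNReal.ofReal_add (by positivity) (by norm_num), ENNReal.ofReal_natCast,
          ENNReal.ofReal_one]
        push_cast
        rfl
    _ ≤ ENNReal.ofReal (3 * (Real.pi * ((L:ℝ) + 1) ^ 2) * δ) := by
        refine ENNReal.ofReal_le_ofReal ?_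
        calc ((N:ℝ) + 1) * (Real.pi * (((L:ℝ) + 1) * δ) ^ 2)
            ≤ (3 / δ) * (Real.pi * (((L:ℝ) + 1) * δ) ^ 2) := by gcongr
          _ = 3 * (Real.pi * ((L:ℝ) + 1) ^ 2) * δ := by
              field_simp

theorem curve_null (γ : ℝ → ℂ) (L : NNReal) (hγ : LipschitzWith L γ) :
    volume (γ '' Icc (0:ℝ) 1) = 0 := by
  obtain ⟨C, hC, h⟩ := area_nbhd γ L hγ
  have h1 : ∀ δ : ℝ, 0 < δ → δ ≤ 1 → volume (γ '' Icc (0:ℝ) 1) ≤ ENNReal.ofReal (C * δ) := by
    intro δ hδ hδ1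
    refine (measure_mono ?_).trans (h δ hδ hδ1)
    intro z hz
    change infDist z _ ≤ δ
    rw [infDist_zero_of_mem hz]
    exact hδ.le
  have h2 : Tendsto (fun δ : ℝ => ENNReal.ofReal (C * δ)) (𝓝[>] 0) (𝓝 0) := by
    have h3 : Tendsto (fun δ : ℝ => C * δ) (𝓝[>] 0) (𝓝 0) := by
      have : Tendsto (fun δ : ℝ => C * δ) (𝓝 0) (𝓝 (C * 0)) := tendsto_id.const_mul C
      rw [mul_zero] at this
      exact this.mono_left nhdsWithin_le_nhds
    have := ENNReal.tendsto_ofReal h3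
    rwa [ENNReal.ofReal_zero] at this
  refine le_antisymm (ge_of_tendsto h2 ?_) bot_le
  filter_upwards [Ioc_mem_nhdsGT (zero_lt_one' ℝ)] with δ hδ
  exact h1 δ hδ.1 hδ.2

/-- integrability of a small power -/
theorem pow_integrable (γ : ℝ → ℂ) (L : NNReal) (hγ : LipschitzWith L γ) (C₂ : ℝ) (hC₂ : 0 ≤ C₂)
    (k : ℕ) (r : ℝ) :
    ∫⁻ z in ball (0:ℂ) r, ENNReal.ofReal (C₂ / (min 1 (infDist z (γ '' Icc 0 1))) ^ k) ^
      (1 / (2 * ((k:ℝ) + 1))) ≠ ⊤ := by
  set E := γ '' Icc (0:ℝ) 1 with hE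
  set σ : ℝ := 1 / (2 * ((k:ℝ) + 1)) with hσ
  have hσ0 : 0 < σ := by positivity
  obtain ⟨C, hC, harea⟩ := area_nbhd γ L hγ
  have hnull : volume E = 0 := curve_null γ L hγ
  have hEc : IsCompact E := isCompact_Icc.image hγ.continuous
  have hEne : E.Nonempty := ⟨γ 0, 0, by simp, rfl⟩
  set A : ℕ → Set ℂ := fun n => {z | min 1 (infDist z E) ≤ (1 / 2 : ℝ) ^ n} with hA
  have hAm : ∀ n, MeasurableSet (A n) := fun n =>
    (isClosed_le (continuous_const.min (continuous_infDist_pt E)) continuous_const).measurableSet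
  set C' : ℝ := C + (volume (ball (0:ℂ) r)).toReal with hC'
  have hC'0 : 0 ≤ C' := by positivity
  have hvol : ∀ n, volume (A n ∩ ball (0:ℂ) r) ≤ ENNReal.ofReal (C' * (1 / 2 : ℝ) ^ n) := by
    intro n
    rcases Nat.eq_zero_or_pos n with rfl | hn
    · rw [pow_zero, mul_one]
      calc volume (A 0 ∩ ball (0:ℂ) r) ≤ volume (ball (0:ℂ) r) := measure_mono inter_subset_right
        _ = ENNReal.ofReal (volume (ball (0:ℂ) r)).toReal :=
            (ENNReal.ofReal_toReal measure_ball_lt_top.ne).symm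
        _ ≤ ENNReal.ofReal C' := ENNReal.ofReal_le_ofReal (by rw [hC']; linarith)
    · have h1 : A n ⊆ {z | infDist z E ≤ (1 / 2 : ℝ) ^ n} := by
        intro z hz
        have hz' : min 1 (infDist z E) ≤ (1 / 2 : ℝ) ^ n := hz
        rcases min_le_iff.1 hz' with h | h
        · exfalso
          have : (1 / 2 : ℝ) ^ n < 1 := pow_lt_one₀ (by norm_num) (by norm_num) (by omega)
          linarith
        · exact h
      calc volume (A n ∩ ball (0:ℂ) r) ≤ volume {z | infDist z E ≤ (1 / 2 : ℝ) ^ n} :=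
            measure_mono (inter_subset_left.trans h1)
        _ ≤ ENNReal.ofReal (C * (1 / 2 : ℝ) ^ n) :=
            harea _ (by positivity) (pow_le_one₀ (by norm_num) (by norm_num))
        _ ≤ ENNReal.ofReal (C' * (1 / 2 : ℝ) ^ n) := by
            refine ENNReal.ofReal_le_ofReal ?_
            gcongr
            rw [hC']
            have : 0 ≤ (volume (ball (0:ℂ) r)).toReal := ENNReal.toReal_nonneg
            linarith
  have hk : ((2:ℝ) ^ k) ^ σ ≤ 3 / 2 := by
    have h1 : ((2:ℝ) ^ k) ^ σ = 2 ^ ((k:ℝ) * σ) := by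
      rw [← Real.rpow_natCast, ← Real.rpow_mul (by norm_num)]
    have h2 : (k:ℝ) * σ ≤ 1 / 2 := by
      rw [hσ, mul_one_div, div_le_div_iff₀ (by positivity) (by norm_num)]
      linarith
    have h3 : (2:ℝ) ^ (1 / 2 : ℝ) ≤ 3 / 2 := by
      rw [← Real.sqrt_eq_rpow]
      rw [Real.sqrt_le_left (by norm_num)]
      norm_num
    rw [h1]
    exact (Real.rpow_le_rpow_of_exponent_le (by norm_num) h2).trans h3
  set c : ℕ → ℝ := fun n => C₂ ^ σ * (3 / 2) ^ (n + 1) with hc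
  have hc0 : ∀ n, 0 ≤ c n := fun n => by positivity
  have hpt : ∀ z, z ∉ E → ENNReal.ofReal (C₂ / (min 1 (infDist z E)) ^ k) ^ σ ≤
      ∑' n, ENNReal.ofReal (c n) * (A n).indicator 1 z := by
    intro z hz
    have hd : 0 < infDist z E := (hEc.isClosed.notMem_iff_infDist_pos hEne).1 hz
    set m := min 1 (infDist z E) with hm
    have hm0 : 0 < m := lt_min one_pos hd
    have hm1 : m ≤ 1 := min_le_left _ _
    obtain ⟨n, hn1, hn2⟩ := exists_nat_pow_near_of_lt_one hm0 hm1 (show (0:ℝ) < 1 / 2 by norm_num)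
      (by norm_num)
    refine le_trans ?_ (ENNReal.le_tsum n)
    have hzA : z ∈ A n := hn2
    rw [Set.indicator_of_mem hzA, Pi.one_apply, mul_one,
      ENNReal.ofReal_rpow_of_nonneg (by positivity) hσ0.le]
    refine ENNReal.ofReal_le_ofReal ?_
    have h1 : C₂ / m ^ k ≤ C₂ * ((2:ℝ) ^ k) ^ (n + 1) := by
      rw [div_le_iff₀ (by positivity)]
      have h2 : 1 ≤ ((2:ℝ) ^ k) ^ (n + 1) * m ^ k := by
        have h3 : ((2:ℝ) ^ k) ^ (n + 1) * m ^ k = ((2:ℝ) ^ (n + 1) * m) ^ k := by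
          rw [mul_pow]
          congr 1
          rw [← pow_mul, ← pow_mul, mul_comm]
        rw [h3]
        refine one_le_pow₀ ?_
        have h4 : (2:ℝ) ^ (n + 1) * (1 / 2) ^ (n + 1) = 1 := by
          rw [← mul_pow]; norm_num
        calc (1:ℝ) = (2:ℝ) ^ (n + 1) * (1 / 2) ^ (n + 1) := h4.symm
          _ ≤ (2:ℝ) ^ (n + 1) * m := by gcongr
      calc C₂ = C₂ * 1 := (mul_one _).symm
        _ ≤ C₂ * (((2:ℝ) ^ k) ^ (n + 1) * m ^ k) := by gcongr
        _ = _ := by ring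
    calc (C₂ / m ^ k) ^ σ ≤ (C₂ * ((2:ℝ) ^ k) ^ (n + 1)) ^ σ :=
          Real.rpow_le_rpow (by positivity) h1 hσ0.le
      _ = C₂ ^ σ * (((2:ℝ) ^ k) ^ σ) ^ (n + 1) := by
          rw [Real.mul_rpow hC₂ (by positivity)]
          congr 1
          rw [← Real.rpow_natCast, ← Real.rpow_natCast (((2:ℝ) ^ k) ^ σ), ← Real.rpow_mul (by positivity),
            ← Real.rpow_mul (by positivity), mul_comm]
      _ ≤ c n := by
          rw [hc]
          simp only
          gcongr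
  have h1 : ∫⁻ z in ball (0:ℂ) r, ENNReal.ofReal (C₂ / (min 1 (infDist z E)) ^ k) ^ σ ≤
      ∫⁻ z in ball (0:ℂ) r, ∑' n, ENNReal.ofReal (c n) * (A n).indicator 1 z := by
    refine lintegral_mono_ae (ae_restrict_of_ae ?_)
    have h2 : ∀ᵐ z ∂(volume : Measure ℂ), z ∉ E := by
      rw [ae_iff]
      simpa using hnull
    filter_upwards [h2] with z hz
    exact hpt z hz
  refine ne_top_of_le_ne_top ?_ h1
  have hmeas : ∀ n : ℕ, AEMeasurable
      (fun z : ℂ => ENNReal.ofReal (c n) * (A n).indicator (1 : ℂ → ℝ≥0∞) z)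
      (volume.restrict (ball (0:ℂ) r)) := by
    intro n
    have : Measurable (1 : ℂ → ℝ≥0∞) := measurable_const
    exact ((this.indicator (hAm n)).const_mul _).aemeasurable
  rw [lintegral_tsum hmeas]
  have h2 : ∀ n, ∫⁻ z in ball (0:ℂ) r, ENNReal.ofReal (c n) * (A n).indicator 1 z ≤
      ENNReal.ofReal (C₂ ^ σ * (3 / 2) * C' * (3 / 4 : ℝ) ^ n) := by
    intro n
    rw [lintegral_const_mul' _ _ ENNReal.ofReal_ne_top, lintegral_indicator_one (hAm n),
      Measure.restrict_apply (hAm n)]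
    calc ENNReal.ofReal (c n) * volume (A n ∩ ball (0:ℂ) r)
        ≤ ENNReal.ofReal (c n) * ENNReal.ofReal (C' * (1 / 2 : ℝ) ^ n) := by
          gcongr
          exact hvol n
      _ = ENNReal.ofReal (c n * (C' * (1 / 2 : ℝ) ^ n)) := (ENNReal.ofReal_mul (hc0 n)).symm
      _ = ENNReal.ofReal (C₂ ^ σ * (3 / 2) * C' * (3 / 4 : ℝ) ^ n) := by
          congr 1
          rw [hc]
          simp only
          have : (3 / 4 : ℝ) ^ n = (3 / 2) ^ n * (1 / 2) ^ n := by rw [← mul_pow]; norm_num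
          rw [this, pow_succ]
          ring
  refine ne_top_of_le_ne_top ?_ (ENNReal.tsum_le_tsum h2)
  have hs : Summable fun n : ℕ => C₂ ^ σ * (3 / 2) * C' * (3 / 4 : ℝ) ^ n :=
    (summable_geometric_of_lt_one (by norm_num) (by norm_num)).mul_left _
  rw [← ENNReal.ofReal_tsum_of_nonneg (fun n => by positivity) hs]
  exact ENNReal.ofReal_ne_top

end Pool.Agent.J4.H86.CR
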