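import Pool.Agent.J4.H86.CR.RDC

/-!
Operators whose spectrum is a point and whose resolvent has small essential norm.
-/

set_option autoImplicit false
set_option linter.unusedSectionVars false

open MeasureTheory Metric Set Filter Topology
open scoped ENNReal

namespace Pool.Agent.J4.H86.CR

open Pool.Agent.W402.HI Pool.Agent.W706.HIR
open Pool.Agent.TH908.IS (Loc)

variable {X : Type} [NormedAddCommGroup X] [NormedSpace ℂ X] [CompleteSpace X]

/-- the compact operators -/
def Kc (X : Type) [NormedAddCommGroup X] [NormedSpace ℂ X] [CompleteSpace X] :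
    Submodule ℂ (X →L[ℂ] X) where
  carrier := {A | IsCompactOperator A}
  add_mem' := fun ha hb => IsCompactOperator.add ha hb
  zero_mem' := isCompactOperator_zero
  smul_mem' := fun c _ ha => IsCompactOperator.smul ha c

instance Kc_closed : IsClosed (Kc X : Set (X →L[ℂ] X)) := isClosed_setOfPred_isCompactOperator

/-- the quotient by the compact operators -/
def Cq (X : Type) [NormedAddCommGroup X] [NormedSpace ℂ X] [CompleteSpace X] : Type :=
  (X →L[ℂ] X) ⧸ Kc X

noncomputable instance : NormedAddCommGroup (Cq X) :=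
  inferInstanceAs (NormedAddCommGroup ((X →L[ℂ] X) ⧸ Kc X))

noncomputable instance : NormedSpace ℂ (Cq X) :=
  inferInstanceAs (NormedSpace ℂ ((X →L[ℂ] X) ⧸ Kc X))

instance : CompleteSpace (Cq X) :=
  inferInstanceAs (CompleteSpace ((X →L[ℂ] X) ⧸ Kc X))

/-- the quotient map, linear -/
noncomputable def ql : (X →L[ℂ] X) →ₗ[ℂ] Cq X where
  toFun := fun A => (Submodule.Quotient.mk A : (X →L[ℂ] X) ⧸ Kc X)
  map_add' := fun _ _ => rfl
  map_smul' := fun _ _ => rfl

theorem norm_ql (A : X →L[ℂ] X) : ‖ql A‖ ≤ ‖A‖ := Submodule.Quotient.norm_mk_le (Kc X) A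

/-- the quotient map -/
noncomputable def qm : (X →L[ℂ] X) →L[ℂ] Cq X :=
  LinearMap.mkContinuous ql 1 fun x => by
    rw [one_mul]
    exact norm_ql x

theorem qm_apply (A : X →L[ℂ] X) : qm A = ql A := rfl

theorem ql_eq_zero {A : X →L[ℂ] X} : ql A = 0 ↔ IsCompactOperator A := by
  have h1 : (Submodule.Quotient.mk A : (X →L[ℂ] X) ⧸ Kc X) = 0 ↔ A ∈ Kc X :=
    Submodule.Quotient.mk_eq_zero _
  exact h1

theorem qm_eq_zero {A : X →L[ℂ] X} : qm A = 0 ↔ IsCompactOperator A := ql_eq_zero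

theorem norm_qm (A : X →L[ℂ] X) : ‖qm A‖ ≤ ‖A‖ := norm_ql A

theorem norm_qm_sub {A K : X →L[ℂ] X} (hK : IsCompactOperator K) : ‖qm A‖ ≤ ‖A - K‖ := by
  have h1 : qm A = qm (A - K) := by
    rw [map_sub, qm_eq_zero.2 hK, sub_zero]
  rw [h1]
  exact norm_qm _

theorem ql_lt (q : Cq X) {ε : ℝ} (hε : 0 < ε) : ∃ a : X →L[ℂ] X, ql a = q ∧ ‖a‖ < ‖q‖ + ε := by
  obtain ⟨a, h1, h2⟩ := Submodule.Quotient.norm_mk_lt (S := Kc X) q hε
  exact ⟨a, h1, h2⟩

/-- left multiplication on the quotient, linear -/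
noncomputable def lql (B : X →L[ℂ] X) : Cq X →ₗ[ℂ] Cq X where
  toFun := fun q => (Kc X).mapQ (Kc X) (LinearMap.mulLeft ℂ B)
    (fun _ hA => IsCompactOperator.clm_comp hA B) q
  map_add' := fun a b => map_add ((Kc X).mapQ (Kc X) (LinearMap.mulLeft ℂ B)
    (fun _ hA => IsCompactOperator.clm_comp hA B)) a b
  map_smul' := fun c a => map_smul ((Kc X).mapQ (Kc X) (LinearMap.mulLeft ℂ B)
    (fun _ hA => IsCompactOperator.clm_comp hA B)) c a

theorem lql_ql (B A : X →L[ℂ] X) : lql B (ql A) = ql (B * A) := rfl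

/-- left multiplication on the quotient -/
noncomputable def lq (B : X →L[ℂ] X) : Cq X →L[ℂ] Cq X :=
  LinearMap.mkContinuous (lql B) ‖B‖ (by
      intro q
      refine le_of_forall_pos_le_add fun ε hε => ?_
      obtain ⟨a, rfl, ha⟩ := ql_lt q (show 0 < ε / (‖B‖ + 1) by positivity)
      have h1 : ‖ql (B * a)‖ ≤ ‖B * a‖ := norm_ql _
      have h2 : ‖B * a‖ ≤ ‖B‖ * ‖a‖ := norm_mul_le _ _
      have h3 : ‖B‖ * ‖a‖ ≤ ‖B‖ * (‖ql a‖ + ε / (‖B‖ + 1)) := by gcongr
      have h4 : ‖B‖ * (ε / (‖B‖ + 1)) ≤ ε := by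
        rw [mul_div_assoc', div_le_iff₀ (by positivity)]
        nlinarith [norm_nonneg B]
      rw [lql_ql]
      nlinarith)

theorem lq_qm (B A : X →L[ℂ] X) : lq B (qm A) = qm (B * A) := lql_ql B A

theorem qm_surj (q : Cq X) : ∃ A, qm A = q := by
  obtain ⟨a, h1, h2⟩ := ql_lt q one_pos
  exact ⟨a, h1⟩

theorem lq_pow (B : X →L[ℂ] X) (c : ℂ) (n : ℕ) (A : X →L[ℂ] X) :
    ((lq B - c • (1 : Cq X →L[ℂ] Cq X)) ^ n) (qm A) =
      qm ((B - c • (1 : X →L[ℂ] X)) ^ n * A) := by
  induction n generalizing A with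
  | zero => rw [pow_zero, pow_zero, one_mul]; rfl
  | succ n ih =>
    rw [pow_succ, pow_succ]
    change ((lq B - c • (1 : Cq X →L[ℂ] Cq X)) ^ n) (lq B (qm A) - c • qm A) = _
    rw [lq_qm, ← map_smul, ← map_sub, ih]
    congr 1

theorem res_mul {T : X →L[ℂ] X} {z : ℂ} (hz : z ∈ resolventSet ℂ T) :
    (z • (1 : X →L[ℂ] X) - T) * resolvent T z = 1 ∧
      resolvent T z * (z • (1 : X →L[ℂ] X) - T) = 1 := by
  have hu : IsUnit (algebraMap ℂ (X →L[ℂ] X) z - T) := by
    simpa [spectrum.mem_resolventSet_iff] using hz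
  rw [← Algebra.algebraMap_eq_smul_one]
  exact ⟨Ring.mul_inverse_cancel _ hu, Ring.inverse_mul_cancel _ hu⟩

/-- a power of `T - c` is compact -/
theorem power_compact {T : X →L[ℂ] X} {c : ℂ} (hs : spectrum ℂ T ⊆ {c}) {σ : ℝ} (hσ : 0 < σ)
    (hσ1 : σ ≤ 1) (g : ℂ → ℝ) (r : ℝ) (hr : 0 < r)
    (hg : ∀ᵐ z ∂(volume.restrict (ball c r)), ∃ K : X →L[ℂ] X, IsCompactOperator K ∧
      ‖resolvent T z - K‖ ≤ g z)
    (hgi : ∫⁻ z in ball c r, ENNReal.ofReal (g z) ^ σ ≠ ⊤) :
    ∃ n : ℕ, 1 ≤ n ∧ IsCompactOperator ((T - c • (1 : X →L[ℂ] X)) ^ n) := by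
  have hres : ∀ z, z ≠ c → z ∈ resolventSet ℂ T := by
    intro z hz
    by_contra h
    exact hz (hs h)
  set f : ℂ → Cq X := fun z => qm (resolvent T z) with hf
  have hfeq : ∀ z, z ≠ c → z • f z - lq T (f z) = qm 1 := by
    intro z hz
    rw [hf]
    simp only
    rw [lq_qm, ← map_smul, ← map_sub]
    congr 1
    have := (res_mul (hres z hz)).1
    rw [sub_mul, smul_mul_assoc, one_mul] at this
    exact this
  have hinj : ∀ z, z ≠ c → ∀ u : Cq X, z • u - lq T u = 0 → u = 0 := by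
    intro z hz u hu
    obtain ⟨A, rfl⟩ := qm_surj u
    have h1 : lq (resolvent T z) (z • qm A - lq T (qm A)) = qm A := by
      rw [lq_qm, ← map_smul, ← map_sub, lq_qm]
      congr 1
      have := (res_mul (hres z hz)).2
      calc resolvent T z * (z • A - T * A) =
          resolvent T z * (z • (1 : X →L[ℂ] X) - T) * A := by
            rw [mul_assoc, sub_mul, smul_mul_assoc, one_mul]
        _ = A := by rw [this, one_mul]
    rw [hu, map_zero] at h1
    exact h1.symm
  have hae : ∀ᵐ z ∂(volume : Measure ℂ), z ≠ c := by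
    rw [ae_iff]
    simp
  have hev : ∀ᵐ z ∂(volume : Measure ℂ), ∀ u : Cq X, z • u - lq T u = 0 → u = 0 := by
    filter_upwards [hae] with z hz
    exact hinj z hz
  have hlocal : ∀ a, a ≠ c → Loc (lq T) (qm 1 : Cq X) a := by
    intro a ha
    refine ⟨‖a - c‖, f, norm_pos_iff.2 (sub_ne_zero.2 ha), ?_, ?_⟩
    · intro z hz
      have hzc : z ≠ c := by
        rintro rfl
        rw [mem_ball, dist_eq_norm, norm_sub_rev] at hz
        exact lt_irrefl _ hz
      have h3 := spectrum.hasDerivAt_resolvent_const_left (hres z hzc)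
      exact (qm.differentiableAt.comp z h3.differentiableAt).differentiableWithinAt
    · intro z hz
      have hzc : z ≠ c := by
        rintro rfl
        rw [mem_ball, dist_eq_norm, norm_sub_rev] at hz
        exact lt_irrefl _ hz
      exact hfeq z hzc
  -- choice of the exponent
  obtain ⟨n, hn⟩ := exists_nat_gt (2 / σ)
  have hn1 : 1 ≤ n := by
    rcases Nat.eq_zero_or_pos n with h | h
    · exfalso
      rw [h] at hn
      have : 0 < 2 / σ := by positivity
      push_cast at hn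
      linarith
    · exact h
  refine ⟨n, hn1, ?_⟩
  rw [← qm_eq_zero]
  set Y := ‖(qm ((T - c • (1 : X →L[ℂ] X)) ^ n) : Cq X)‖ with hY
  set I := ∫⁻ z in ball c r, ENNReal.ofReal (g z) ^ σ with hI
  have h6 : Pool.Agent.TH908.RD.St_6 :=
    Pool.Agent.TH908.RD.RD6.main Pool.Agent.TH908.IS.F2.main
  set C := 6 ^ (n + 1) * (I.toReal / (4 * Real.pi)) ^ (1 / σ) with hC
  have hC0 : 0 ≤ C := by positivity
  have hmain : ∀ ε : ℝ, 0 < ε → ε ≤ 1 → 8 * ε ≤ r → Y ≤ C * ε := by
    intro ε hε hε1 hεr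
    have hsub : ball c (4 * (2 * ε)) ⊆ ball c r := ball_subset_ball (by linarith)
    have h8 := h6 (Cq X) (lq T) (qm 1) c (2 * ε) σ n f (by positivity) hσ hσ1 hev
      (fun a ha => hlocal a (by
        rintro rfl
        exact ha (mem_closedBall_self (by positivity))))
      (ae_restrict_of_ae (by filter_upwards [hae] with z hz; exact hfeq z hz))
    rw [lq_pow, mul_one] at h8
    have h9 : ∫⁻ z in ball c (4 * (2 * ε)), ‖f z‖ₑ ^ σ ≤ I := by
      refine (lintegral_mono_set hsub).trans (lintegral_mono_ae ?_)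
      filter_upwards [hg] with z hz
      obtain ⟨K, hK1, hK2⟩ := hz
      refine ENNReal.rpow_le_rpow ?_ hσ.le
      rw [← ofReal_norm]
      exact ENNReal.ofReal_le_ofReal ((norm_qm_sub hK1).trans hK2)
    have h10 := h8.trans (mul_le_mul_right h9 _)
    have h11 : Real.pi * (2 * ε) ^ 2 * Y ^ σ ≤ ((3 * (2 * ε)) ^ (n + 1)) ^ σ * I.toReal := by
      have l1 : ENNReal.ofReal (Real.pi * (2 * ε) ^ 2) *
          ‖(qm ((T - c • (1 : X →L[ℂ] X)) ^ n) : Cq X)‖ₑ ^ σ =
          ENNReal.ofReal (Real.pi * (2 * ε) ^ 2 * Y ^ σ) := by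
        rw [← ofReal_norm, ENNReal.ofReal_rpow_of_nonneg (norm_nonneg _) hσ.le,
          ← ENNReal.ofReal_mul (by positivity)]
      have l2 : (ENNReal.ofReal ((3 * (2 * ε)) ^ (n + 1))) ^ σ * I =
          ENNReal.ofReal (((3 * (2 * ε)) ^ (n + 1)) ^ σ * I.toReal) := by
        rw [ENNReal.ofReal_mul (by positivity), ENNReal.ofReal_toReal hgi,
          ENNReal.ofReal_rpow_of_nonneg (by positivity) hσ.le]
      rw [l1, l2] at h10
      exact (ENNReal.ofReal_le_ofReal_iff (by positivity)).mp h10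
    have h12 := Pool.Agent.TH908.RD.Det.num (norm_nonneg _) (by positivity)
      ENNReal.toReal_nonneg hσ hε h11
    refine h12.trans ?_
    have e2 : (3 * (2 * ε)) ^ (n + 1) = 6 ^ (n + 1) * ε ^ (n + 1) := by
      rw [← mul_pow]
      congr 1
      ring
    have e3 : ε ^ (n + 1) * ε ^ (-(2 / σ)) ≤ ε := by
      have e4 : ε ^ (n + 1) * ε ^ (-(2 / σ)) = ε ^ (((n : ℝ) + 1) + -(2 / σ)) := by
        rw [← Real.rpow_natCast, ← Real.rpow_add hε]
        push_cast
        rfl
      rw [e4]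
      calc ε ^ (((n : ℝ) + 1) + -(2 / σ)) ≤ ε ^ (1 : ℝ) :=
            Real.rpow_le_rpow_of_exponent_ge hε hε1 (by linarith)
        _ = ε := Real.rpow_one ε
    rw [e2, hC]
    calc 6 ^ (n + 1) * ε ^ (n + 1) * (I.toReal / (4 * Real.pi)) ^ (1 / σ) * ε ^ (-(2 / σ))
        = 6 ^ (n + 1) * (I.toReal / (4 * Real.pi)) ^ (1 / σ) *
          (ε ^ (n + 1) * ε ^ (-(2 / σ))) := by ring
      _ ≤ 6 ^ (n + 1) * (I.toReal / (4 * Real.pi)) ^ (1 / σ) * ε := by
          gcongr
  have hY0 : Y ≤ 0 := by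
    by_contra hcon
    push Not at hcon
    have h1 := hmain (min (min 1 (r / 8)) (Y / (2 * (C + 1)))) (by positivity)
      ((min_le_left _ _).trans (min_le_left _ _)) (by
        have := (min_le_left (min 1 (r / 8)) (Y / (2 * (C + 1)))).trans (min_le_right _ _)
        linarith)
    have h2 : C * min (min 1 (r / 8)) (Y / (2 * (C + 1))) ≤ C * (Y / (2 * (C + 1))) := by
      gcongr
      exact min_le_right _ _
    have h3 : C * (Y / (2 * (C + 1))) < Y := by
      rw [mul_div_assoc', div_lt_iff₀ (by positivity)]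
      nlinarith
    linarith
  exact norm_le_zero_iff.1 hY0

/-- a one point spectrum -/
theorem one_point {T : X →L[ℂ] X} {c : ℂ} (hs : spectrum ℂ T = {c}) {σ : ℝ} (hσ : 0 < σ)
    (hσ1 : σ ≤ 1) (g : ℂ → ℝ) (r : ℝ) (hr : 0 < r)
    (hg : ∀ᵐ z ∂(volume.restrict (ball c r)), ∃ K : X →L[ℂ] X, IsCompactOperator K ∧
      ‖resolvent T z - K‖ ≤ g z)
    (hgi : ∫⁻ z in ball c r, ENNReal.ofReal (g z) ^ σ ≠ ⊤) :
    IsScalar T ∨ HasHyp T := by
  obtain ⟨n, hn, hM⟩ := power_compact hs.le hσ hσ1 g r hr hg hgi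
  set B : X →L[ℂ] X := T - c • (1 : X →L[ℂ] X) with hB
  have hcomm : ∀ Q : X →L[ℂ] X, Q * T = T * Q → Q * B = B * Q := by
    intro Q hQ
    rw [hB, mul_sub, sub_mul, hQ, mul_smul_comm, smul_mul_assoc, one_mul, mul_one]
  by_cases hsc : IsScalar (B ^ n)
  · obtain ⟨a, ha⟩ := hsc
    have hcs : c ∈ spectrum ℂ T := by rw [hs]; rfl
    have hBu : ¬ IsUnit B := by
      intro hu
      apply hcs
      rw [spectrum.mem_resolventSet_iff, Algebra.algebraMap_eq_smul_one]
      have : c • (1 : X →L[ℂ] X) - T = -B := by rw [hB]; abel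
      rw [this]
      exact hu.neg
    obtain ⟨m, rfl⟩ : ∃ m, n = m + 1 := ⟨n - 1, by omega⟩
    have ha0 : a = 0 := by
      by_contra h
      apply hBu
      refine ⟨⟨B, a⁻¹ • B ^ m, ?_, ?_⟩, rfl⟩
      · rw [mul_smul_comm, ← pow_succ', ha, smul_smul, inv_mul_cancel₀ h, one_smul]
      · rw [smul_mul_assoc, ← pow_succ, ha, smul_smul, inv_mul_cancel₀ h, one_smul]
    rw [ha0, zero_smul] at ha
    by_cases htop : LinearMap.ker (B : X →ₗ[ℂ] X) = ⊤
    · left
      refine ⟨c, ?_⟩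
      have : B = 0 := by
        ext x
        have : x ∈ LinearMap.ker (B : X →ₗ[ℂ] X) := by rw [htop]; trivial
        exact this
      rw [hB, sub_eq_zero] at this
      exact this
    · right
      refine ⟨LinearMap.ker (B : X →ₗ[ℂ] X), ContinuousLinearMap.isClosed_ker B, ?_, htop, ?_⟩
      · intro hbot
        have hinj : ∀ x, B x = 0 → x = 0 := by
          intro x hx
          have : x ∈ LinearMap.ker (B : X →ₗ[ℂ] X) := hx
          rw [hbot] at this
          simpa using this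
        have hpow : ∀ k : ℕ, ∀ x, (B ^ k) x = 0 → x = 0 := by
          intro k
          induction k with
          | zero => intro x hx; exact hx
          | succ k ih =>
            intro x hx
            rw [pow_succ'] at hx
            exact ih x (hinj _ hx)
        apply htop
        rw [eq_top_iff]
        intro x _
        have h1 : x = 0 := hpow (m + 1) x (by rw [ha]; rfl)
        rw [h1]
        exact Submodule.zero_mem _
      · intro Q hQ x hx
        have h1 := congrArg (fun L : X →L[ℂ] X => L x) (hcomm Q hQ)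
        change Q (B x) = B (Q x) at h1
        have hx' : B x = 0 := hx
        rw [hx', map_zero] at h1
        exact h1.symm
  · right
    obtain ⟨W, h1, h2, h3, h4⟩ := Pool.Agent.W577.HI.G1.main X (B ^ n) hM hsc
    refine ⟨W, h1, h2, h3, fun Q hQ x hx => h4 Q ?_ x hx⟩
    have h5 : Commute Q B := hcomm Q hQ
    exact h5.pow_right n

end Pool.Agent.J4.H86.CR
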