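import Pool.Agent.J4.H86.CR.Sys
import Pool.Agent.TH908.RD.Fin2

/-!
The theorem of project RD (measurable local resolvents) for operators `T ∈ 𝒞` commuting with `𝒞`, where the
orthogonal complement of every closed `𝒞`-invariant subspace is `𝒞`-invariant.
-/

set_option autoImplicit false
set_option linter.unusedSectionVars false
set_option linter.deprecated false

open MeasureTheory Metric Set Filter Topology
open scoped ENNReal

namespace Pool.Agent.J4.H86.CR

open Pool.Agent.W402.HI Pool.Agent.W706.HIR Pool.Agent.TH908.RD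
open Pool.Agent.TH908.IS (Loc)

variable {H : Type} [NormedAddCommGroup H] [InnerProductSpace ℂ H] [CompleteSpace H]

/-- the adjoint system -/
def adjS (𝒞 : Set (H →L[ℂ] H)) : Set (H →L[ℂ] H) := {Q | ContinuousLinearMap.adjoint Q ∈ 𝒞}

theorem adjS_RS {𝒞 : Set (H →L[ℂ] H)} (hRS : RS 𝒞) : RS (adjS 𝒞) := by
  intro V hV
  have : CompleteSpace V := hV.1.completeSpace_coe
  have h1 : Inv 𝒞 Vᗮ := by
    refine ⟨V.isClosed_orthogonal, fun Q hQ => ?_⟩
    refine orth_inv fun x hx => hV.2 _ ?_ x hx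
    change ContinuousLinearMap.adjoint (ContinuousLinearMap.adjoint Q) ∈ 𝒞
    rwa [ContinuousLinearMap.adjoint_adjoint]
  have h2 := hRS _ h1
  rw [Submodule.orthogonal_orthogonal] at h2
  refine ⟨V.isClosed_orthogonal, fun Q hQ => ?_⟩
  exact orth_inv fun x hx => h2.2 _ hQ x hx

theorem adjS_Cent {𝒞 : Set (H →L[ℂ] H)} {T : H →L[ℂ] H} (h : Cent 𝒞 T) :
    Cent (adjS 𝒞) (ContinuousLinearMap.adjoint T) := by
  refine ⟨?_, ?_⟩
  · change ContinuousLinearMap.adjoint (ContinuousLinearMap.adjoint T) ∈ 𝒞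
    rw [ContinuousLinearMap.adjoint_adjoint]
    exact h.mem
  · intro Q hQ
    have h1 := congrArg star (h.comm _ hQ)
    simp only [← ContinuousLinearMap.star_eq_adjoint, star_mul, star_star] at h1 ⊢
    exact h1.symm

section one

variable {𝒞 : Set (H →L[ℂ] H)} {T : H →L[ℂ] H}

theorem orthE (hRS : RS 𝒞) (hC : Cent 𝒞 T) {z w : ℂ} {u v : H} (hzw : z ≠ w) (hu : T u = z • u)
    (hv : T v = w • v) : inner ℂ u v = (0 : ℂ) :=
  orthFam' hRS hC hzw ⟨u, mem_F.2 hu⟩ ⟨v, mem_F.2 hv⟩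

theorem svC (hRS : RS 𝒞) (hC : Cent 𝒞 T) : SV T := by
  intro a δ F hF hz z hzb
  have hc : ContinuousAt F z := (hF.differentiableAt (isOpen_ball.mem_nhds hzb)).continuousAt
  have h1 : Tendsto (fun w => inner ℂ (F z) (F w) : ℂ → ℂ) (𝓝[≠] z) (𝓝 (inner ℂ (F z) (F z))) := by
    have : ContinuousAt (fun w => inner ℂ (F z) (F w) : ℂ → ℂ) z := continuousAt_const.inner hc
    exact this.tendsto.mono_left nhdsWithin_le_nhds
  have h2 : ∀ᶠ w in 𝓝[≠] z, (inner ℂ (F z) (F w) : ℂ) = 0 := by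
    have hb : ∀ᶠ w in 𝓝[≠] z, w ∈ ball a δ :=
      mem_nhdsWithin_of_mem_nhds (isOpen_ball.mem_nhds hzb)
    have hne : ∀ᶠ w in 𝓝[≠] z, w ≠ z := eventually_mem_nhdsWithin
    filter_upwards [hb, hne] with w hw hwz
    exact orthE hRS hC hwz.symm (sub_eq_zero.1 (hz z hzb)).symm (sub_eq_zero.1 (hz w hw)).symm
  have h3 : Tendsto (fun w => inner ℂ (F z) (F w) : ℂ → ℂ) (𝓝[≠] z) (𝓝 0) :=
    tendsto_const_nhds.congr' (h2.mono fun w hw => hw.symm)
  exact inner_self_eq_zero.1 (tendsto_nhds_unique h1 h3)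

theorem inv_W (hC : Cent 𝒞 T) (K : Set ℂ) : Inv 𝒞 (W T K) :=
  ⟨Submodule.isClosed_topologicalClosure _, fun Q hQ => RD2.W_inv T Q K (hC.comm Q hQ)⟩

theorem PP_T (hRS : RS 𝒞) (hC : Cent 𝒞 T) (K : Set ℂ) : PP T K * T = T * PP T K :=
  (proj_Mm hRS (inv_W hC K) T hC.mem).1

theorem PP_C (hRS : RS 𝒞) (hC : Cent 𝒞 T) (K : Set ℂ) : Mm 𝒞 (PP T K) :=
  proj_Mm hRS (inv_W hC K)

theorem PP_Q (T : H →L[ℂ] H) (K : Set ℂ) (Q : H →L[ℂ] H) (hQ : ContinuousLinearMap.adjoint Q = Q)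
    (hc : Q * T = T * Q) : PP T K * Q = Q * PP T K := by
  have h1 := RD2.W_inv T Q K hc
  exact RD2.proj_comm _ Q h1 (by rw [hQ]; exact h1)

end one

/-- RD-5 for central operators -/
theorem st5C {𝒞 : Set (H →L[ℂ] H)} {T : H →L[ℂ] H} (hRS : RS 𝒞) (hC : Cent 𝒞 T) (σ : ℝ) (ℓ : ℂ → ℝ)
    (x : H) (hℓ : Continuous ℓ) (hG : Good T σ x)
    (htot : (Submodule.span ℂ
      {y : H | Good (ContinuousLinearMap.adjoint T) σ y}).topologicalClosure = ⊤)
    (t : ℝ) (a : ℂ) (hta : t < ℓ a) : Loc T (PP T {z | ℓ z ≤ t} x) a := by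
  have h3 := RD3.main
  have h4 := RD4.main
  have hSV : SV T := svC hRS hC
  have hSVA : SV (ContinuousLinearMap.adjoint T) := svC (adjS_RS hRS) (adjS_Cent hC)
  obtain ⟨s, hs1, hs2⟩ := exists_between hta
  obtain ⟨t', ht1, ht2⟩ := exists_between hs2
  obtain ⟨Kt, hKt⟩ : ∃ Kt : Set ℂ, Kt = {z | ℓ z ≤ t} := ⟨_, rfl⟩
  obtain ⟨K2, hK2⟩ : ∃ K2 : Set ℂ, K2 = {z | t' ≤ ℓ z} := ⟨_, rfl⟩
  obtain ⟨L, hL⟩ : ∃ L : Set ℂ, L = {w | s ≤ ℓ (starRingEnd ℂ w)} := ⟨_, rfl⟩
  have hcc : Continuous fun w : ℂ => ℓ (starRingEnd ℂ w) := hℓ.comp Complex.continuous_conj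
  rw [← hKt]
  -- orthogonality of `W T Kt` and `W (adjoint T) L`
  have o1 : ∀ u ∈ W T Kt, ∀ v ∈ W (ContinuousLinearMap.adjoint T) L, inner ℂ u v = 0 := by
    refine RD5.orth _ _ fun u hu v hv => ?_
    refine h4 H T hSV hSVA Kt {l | s ≤ ℓ l} ?_ u v hu fun b hb => hv _ ?_
    · rw [Set.disjoint_left, hKt]
      intro z hz hz'
      simp only [Set.mem_ofPred_eq] at hz hz'
      linarith
    · rw [hL]
      intro hb'
      simp only [Set.mem_ofPred_eq, Complex.conj_conj] at hb'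
      exact hb hb'
  -- `P2 y = P2 (Q y)` for good `y`
  have o2 : ∀ y, Good (ContinuousLinearMap.adjoint T) σ y →
      PP T K2 y = PP T K2 (PP (ContinuousLinearMap.adjoint T) L y) := by
    intro y hy
    have e1 : PP T K2 (y - PP (ContinuousLinearMap.adjoint T) L y) = 0 := by
      refine RD5.PP_zero T K2 _ ?_
      have := RD5.orth {u : H | ∀ a : ℂ, a ∉ K2 → Loc T u a}
        {y - PP (ContinuousLinearMap.adjoint T) L y} (fun u hu v hv => by
          rw [Set.mem_singleton_iff] at hv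
          rw [hv]
          refine h4 H T hSV hSVA K2 {l | ℓ l ≤ s} ?_ u _ hu fun b hb => ?_
          · rw [Set.disjoint_left, hK2]
            intro z hz hz'
            simp only [Set.mem_ofPred_eq] at hz hz'
            linarith
          · refine h3 H (ContinuousLinearMap.adjoint T) L y _ σ
              (PP_T (adjS_RS hRS) (adjS_Cent hC) L) hy ?_
            have hop : IsOpen {w : ℂ | s < ℓ (starRingEnd ℂ w)} := isOpen_lt continuous_const hcc
            refine interior_maximal (t := {w : ℂ | s < ℓ (starRingEnd ℂ w)}) ?_ hop ?_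
            · rw [hL]
              intro w hw
              simp only [Set.mem_ofPred_eq] at hw ⊢
              exact hw.le
            · simp only [Set.mem_ofPred_eq, Complex.conj_conj]
              simp only [Set.mem_ofPred_eq, not_le] at hb
              exact hb)
      intro u hu
      exact this u hu _ (Submodule.le_topologicalClosure _ (Submodule.subset_span rfl))
    rw [map_sub, sub_eq_zero] at e1
    exact e1
  have o3 : ∀ y, PP T K2 y = PP T K2 (PP (ContinuousLinearMap.adjoint T) L y) := by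
    intro y
    have hle : (Submodule.span ℂ
        {y : H | Good (ContinuousLinearMap.adjoint T) σ y}).topologicalClosure ≤
        LinearMap.ker ((PP T K2 - PP T K2 * PP (ContinuousLinearMap.adjoint T) L : H →L[ℂ] H) :
          H →ₗ[ℂ] H) := by
      refine Submodule.topologicalClosure_minimal _ ?_ ?_
      · rw [Submodule.span_le]
        intro z hz
        show PP T K2 z - PP T K2 (PP (ContinuousLinearMap.adjoint T) L z) = 0
        rw [sub_eq_zero]
        exact o2 z hz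
      · exact ContinuousLinearMap.isClosed_ker
          (PP T K2 - PP T K2 * PP (ContinuousLinearMap.adjoint T) L : H →L[ℂ] H)
    rw [htot] at hle
    have := hle (Submodule.mem_top (x := y))
    have e2 : PP T K2 y - PP T K2 (PP (ContinuousLinearMap.adjoint T) L y) = 0 := this
    rwa [sub_eq_zero] at e2
  -- `P P2 = 0`
  have o4 : ∀ u, PP T K2 (PP T Kt u) = 0 := by
    intro u
    rw [o3]
    have : PP (ContinuousLinearMap.adjoint T) L (PP T Kt u) = 0 := by
      refine RD5.PP_zero _ _ _ fun v hv => ?_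
      rw [← inner_conj_symm, o1 _ (RD5.PP_mem T Kt u) v hv, map_zero]
    rw [this, map_zero]
  have o5 : PP T Kt (PP T K2 x) = 0 := by
    rw [← inner_self_eq_zero (𝕜 := ℂ), ← RD5.PP_symm, ← RD5.PP_symm, o4, inner_zero_left]
  have o6 : PP T Kt x = PP T Kt (x - PP T K2 x) := by
    rw [map_sub, o5, sub_zero]
  have hloc : Loc T (x - PP T K2 x) a := by
    refine h3 H T K2 x a σ (PP_T hRS hC K2) hG ?_
    have hop : IsOpen {w : ℂ | t' < ℓ w} := isOpen_lt continuous_const hℓ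
    refine interior_maximal (t := {w : ℂ | t' < ℓ w}) ?_ hop ht2
    rw [hK2]
    intro w hw
    simp only [Set.mem_ofPred_eq] at hw ⊢
    exact hw.le
  rw [o6]
  obtain ⟨δ, F, hδ, hF, he⟩ := hloc
  have hcomm := PP_T hRS hC Kt
  refine ⟨δ, fun z => PP T Kt (F z), hδ, (PP T Kt).differentiable.comp_differentiableOn hF,
    fun z hz => ?_⟩
  have h5 : T (PP T Kt (F z)) = PP T Kt (T (F z)) :=
    congrArg (fun S : H →L[ℂ] H => S (F z)) hcomm.symm
  simp only
  rw [h5, ← map_smul, ← map_sub, he z hz]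

section dirbox

variable {𝒞 : Set (H →L[ℂ] H)} {T : H →L[ℂ] H}

/-- one direction -/
theorem dirC (hRS : RS 𝒞) (hC : Cent 𝒞 T) {σ : ℝ} {ℓ : ℂ → ℝ}
    (hℓ : Continuous ℓ) {x : H} (hx : Good T σ x)
    (hS : (Submodule.span ℂ {y : H | Good (ContinuousLinearMap.adjoint T) σ y}).topologicalClosure = ⊤)
    (s ε : ℝ) (hε : 0 < ε) (a : ℂ) (ha : s < ℓ a ∨ ℓ a < s - ε) :
    Loc T ((PP T {z | ℓ z ≤ s} - PP T {z | ℓ z ≤ s - ε}) x) a := by
  have h3 := RD3.main
  rcases ha with ha | ha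
  · rw [ContinuousLinearMap.sub_apply]
    exact Det.loc_sub (st5C hRS hC σ ℓ x hℓ hx hS s a ha)
      (st5C hRS hC σ ℓ x hℓ hx hS (s - ε) a (by linarith))
  · have e : (PP T {z | ℓ z ≤ s} - PP T {z | ℓ z ≤ s - ε}) x =
        (x - PP T {z | ℓ z ≤ s - ε} x) - (x - PP T {z | ℓ z ≤ s} x) := by
      rw [ContinuousLinearMap.sub_apply]
      abel
    rw [e]
    have hint : ∀ t, ℓ a < t → a ∈ interior {z | ℓ z ≤ t} := by
      intro t ht
      rw [mem_interior]
      exact ⟨{z | ℓ z < t}, fun z (hz : ℓ z < t) => (show ℓ z ≤ t from hz.le),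
        isOpen_lt hℓ continuous_const, ht⟩
    exact Det.loc_sub (h3 H T _ x a σ (PP_T hRS hC _) hx (hint _ ha))
      (h3 H T _ x a σ (PP_T hRS hC _) hx (hint _ (by linarith)))

/-- the estimate on a box -/
theorem boxC (hRS : RS 𝒞) (hC : Cent 𝒞 T) {σ : ℝ} (hσ : 0 < σ) (hσ1 : σ ≤ 1)
    (hev : ∀ᵐ z ∂(volume : Measure ℂ), ∀ u : H, z • u - T u = 0 → u = 0)
    {x : H} (hx : Good T σ x)
    (hS : (Submodule.span ℂ {y : H | Good (ContinuousLinearMap.adjoint T) σ y}).topologicalClosure = ⊤)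
    (R : ℝ) (j : ℕ) :
    ∃ C : ℝ, ∀ (ε s s' : ℝ), 0 < ε → ε ≤ 1 → |s| ≤ R + 1 → |s'| ≤ R + 1 →
      ‖((T - ((⟨s, s'⟩ : ℂ)) • (1 : H →L[ℂ] H)) ^ j)
        (((PP T {z | z.re ≤ s} - PP T {z | z.re ≤ s - ε}) *
          (PP T {z | z.im ≤ s'} - PP T {z | z.im ≤ s' - ε})) x)‖ ≤
        C * ε ^ ((j : ℝ) - (2 / σ - 1)) := by
  have h6 : St_6 := RD6.main Pool.Agent.TH908.IS.F2.main
  obtain ⟨M, hM⟩ := exists_nat_gt (2 * (R + 1) + 8)
  obtain ⟨f, hf1, hf2, hf3, hf4⟩ := hx M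
  set I := ∫⁻ z in ball (0 : ℂ) M, ‖f z‖ₑ ^ σ with hI
  refine ⟨6 ^ (j + 1) * 4 * (I.toReal / (4 * Real.pi)) ^ (1 / σ), ?_⟩
  intro ε s s' hε hε1 hs hs'
  set c : ℂ := ⟨s, s'⟩ with hc
  set A := PP T {z | z.re ≤ s} - PP T {z | z.re ≤ s - ε} with hA
  set B := PP T {z | z.im ≤ s'} - PP T {z | z.im ≤ s' - ε} with hB
  have hPT : ∀ K, PP T K * T = T * PP T K := fun K => PP_T hRS hC K
  have hPP : ∀ K K', PP T K * PP T K' = PP T K' * PP T K := fun K K' =>
    PP_Q T K _ (Det.PP_adj T K') (hPT K')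
  have hAT : A * T = T * A := by rw [hA, sub_mul, mul_sub, hPT, hPT]
  have hBT : B * T = T * B := by rw [hB, sub_mul, mul_sub, hPT, hPT]
  have hAB : A * B = B * A := by
    rw [hA, hB]
    simp only [sub_mul, mul_sub]
    rw [hPP {z | z.re ≤ s} {z | z.im ≤ s'}, hPP {z | z.re ≤ s} {z | z.im ≤ s' - ε},
      hPP {z | z.re ≤ s - ε} {z | z.im ≤ s'}, hPP {z | z.re ≤ s - ε} {z | z.im ≤ s' - ε}]
    abel
  have hET : (A * B) * T = T * (A * B) := by
    rw [mul_assoc, hBT, ← mul_assoc, hAT, mul_assoc]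
  have hdiff : ∀ (K K' : Set ℂ) (u : H), ‖(PP T K - PP T K') u‖ ≤ 2 * ‖u‖ := by
    intro K K' u
    rw [ContinuousLinearMap.sub_apply]
    calc ‖PP T K u - PP T K' u‖ ≤ ‖PP T K u‖ + ‖PP T K' u‖ := norm_sub_le _ _
      _ ≤ ‖u‖ + ‖u‖ := add_le_add (Det.PP_norm _ _ _) (Det.PP_norm _ _ _)
      _ = 2 * ‖u‖ := by ring
  have hEn : ∀ u, ‖(A * B) u‖ ≤ 4 * ‖u‖ := by
    intro u
    calc ‖(A * B) u‖ = ‖A (B u)‖ := rfl
      _ ≤ 2 * ‖B u‖ := hdiff _ _ _
      _ ≤ 2 * (2 * ‖u‖) := by gcongr; exact hdiff _ _ _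
      _ = 4 * ‖u‖ := by ring
  have hloc : ∀ a, a ∉ closedBall c (2 * ε) → Loc T ((A * B) x) a := by
    intro a ha
    have hor : (s < a.re ∨ a.re < s - ε) ∨ (s' < a.im ∨ a.im < s' - ε) := by
      by_contra hcon
      push Not at hcon
      obtain ⟨⟨g1, g2⟩, g3, g4⟩ := hcon
      apply ha
      rw [mem_closedBall, dist_eq_norm]
      refine (Complex.norm_le_abs_re_add_abs_im _).trans ?_
      have k1 : |(a - c).re| ≤ ε := by
        rw [Complex.sub_re, hc, abs_le]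
        constructor <;> simp only [] <;> linarith
      have k2 : |(a - c).im| ≤ ε := by
        rw [Complex.sub_im, hc, abs_le]
        constructor <;> simp only [] <;> linarith
      linarith
    rcases hor with h | h
    · have e : (A * B) x = B (A x) := by
        rw [hAB]; rfl
      rw [e]
      exact Det.loc_map hBT (dirC hRS hC Complex.continuous_re hx hS s ε hε a h)
    · have e : (A * B) x = A (B x) := rfl
      rw [e]
      exact Det.loc_map hAT (dirC hRS hC Complex.continuous_im hx hS s' ε hε a h)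
  have hsub : ball c (4 * (2 * ε)) ⊆ ball (0 : ℂ) M := by
    intro z hz
    rw [mem_ball, dist_eq_norm] at hz
    rw [mem_ball, dist_zero_right]
    have k1 : ‖c‖ ≤ 2 * (R + 1) := by
      refine (Complex.norm_le_abs_re_add_abs_im _).trans ?_
      rw [hc]
      simp only []
      linarith
    calc ‖z‖ = ‖(z - c) + c‖ := by rw [sub_add_cancel]
      _ ≤ ‖z - c‖ + ‖c‖ := norm_add_le _ _
      _ < M := by linarith
  have hae : ∀ᵐ z ∂(volume.restrict (ball c (4 * (2 * ε)))),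
      z • (A * B) (f z) - T ((A * B) (f z)) = (A * B) x := by
    have h7 := ae_mono (Measure.restrict_mono hsub le_rfl) hf2
    filter_upwards [h7] with z hz
    have e := congrArg (fun L : H →L[ℂ] H => L (f z)) hET
    have e' : (A * B) (T (f z)) = T ((A * B) (f z)) := e
    rw [← e', ← map_smul, ← map_sub, hz]
  have h8 := h6 H T ((A * B) x) c (2 * ε) σ j (fun z => (A * B) (f z)) (by positivity) hσ hσ1 hev
    hloc hae
  have h9 : ∫⁻ z in ball c (4 * (2 * ε)), ‖(A * B) (f z)‖ₑ ^ σ ≤ (ENNReal.ofReal 4) ^ σ * I := by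
    rw [hI, ← lintegral_const_mul' _ _ (ENNReal.rpow_ne_top_of_nonneg hσ.le ENNReal.ofReal_ne_top)]
    refine (lintegral_mono_set hsub).trans (lintegral_mono fun z => ?_)
    rw [← ENNReal.mul_rpow_of_nonneg _ _ hσ.le]
    gcongr
    rw [← ofReal_norm_eq_enorm, ← ofReal_norm_eq_enorm, ← ENNReal.ofReal_mul (by norm_num)]
    exact ENNReal.ofReal_le_ofReal (hEn _)
  have h10 := h8.trans (mul_le_mul_right h9 _)
  have hItop : I ≠ ⊤ := hf4
  set X := ‖((T - c • (1 : H →L[ℂ] H)) ^ j) ((A * B) x)‖ with hX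
  have h11 : Real.pi * (2 * ε) ^ 2 * X ^ σ ≤ ((3 * (2 * ε)) ^ (j + 1) * 4) ^ σ * I.toReal := by
    have l1 : ENNReal.ofReal (Real.pi * (2 * ε) ^ 2) *
        ‖((T - c • (1 : H →L[ℂ] H)) ^ j) ((A * B) x)‖ₑ ^ σ =
        ENNReal.ofReal (Real.pi * (2 * ε) ^ 2 * X ^ σ) := by
      rw [← ofReal_norm_eq_enorm, ENNReal.ofReal_rpow_of_nonneg (norm_nonneg _) hσ.le,
        ← ENNReal.ofReal_mul (by positivity)]
    have l2 : (ENNReal.ofReal ((3 * (2 * ε)) ^ (j + 1))) ^ σ * ((ENNReal.ofReal 4) ^ σ * I) =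
        ENNReal.ofReal (((3 * (2 * ε)) ^ (j + 1) * 4) ^ σ * I.toReal) := by
      rw [ENNReal.ofReal_mul (by positivity), ENNReal.ofReal_toReal hItop,
        Real.mul_rpow (by positivity) (by norm_num), ENNReal.ofReal_mul (by positivity),
        ENNReal.ofReal_rpow_of_nonneg (by positivity) hσ.le,
        ENNReal.ofReal_rpow_of_nonneg (by norm_num) hσ.le, mul_assoc]
    rw [l1, l2] at h10
    exact (ENNReal.ofReal_le_ofReal_iff (by positivity)).mp h10
  have h12 := Det.num (norm_nonneg _) (by positivity) ENNReal.toReal_nonneg hσ hε h11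
  refine h12.trans (le_of_eq ?_)
  have e1 : ε ^ ((j : ℝ) - (2 / σ - 1)) = ε ^ (j + 1) * ε ^ (-(2 / σ)) := by
    rw [← Real.rpow_natCast, ← Real.rpow_add hε]
    congr 1
    push_cast
    ring
  rw [e1]
  have e2 : (3 * (2 * ε)) ^ (j + 1) = 6 ^ (j + 1) * ε ^ (j + 1) := by
    rw [← mul_pow]
    congr 1
    ring
  rw [e2]
  ring

end dirbox

open ContinuousLinearMap (adjoint) in
/-- the nilpotent part vanishes -/
theorem nilC {𝒞 : Set (H →L[ℂ] H)} {T : H →L[ℂ] H} (hRS : RS 𝒞) (hC : Cent 𝒞 T)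
    {A A' : H →L[ℂ] H} (hA : adjoint A = A) (hA' : adjoint A' = A')
    (hA𝒞 : ∀ Q ∈ 𝒞, A * Q = Q * A) (hA'𝒞 : ∀ Q ∈ 𝒞, A' * Q = Q * A') (hAA' : A * A' = A' * A)
    (hn : ∃ n : ℕ, (T - (A + Complex.I • A')) ^ n = 0) : IsStarNormal T := by
  have hAT := hA𝒞 T hC.mem
  have hA'T := hA'𝒞 T hC.mem
  set B : H →L[ℂ] H := A + Complex.I • A' with hB
  set N : H →L[ℂ] H := T - B with hN
  have hBA : B * A = A * B := by
    rw [hB, add_mul, mul_add, smul_mul_assoc, mul_smul_comm, hAA']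
  have hBA' : B * A' = A' * B := by
    rw [hB, add_mul, mul_add, smul_mul_assoc, mul_smul_comm, hAA']
  have cA : N * A = A * N := by
    rw [hN, sub_mul, mul_sub, hBA, hAT]
  have cA' : N * A' = A' * N := by
    rw [hN, sub_mul, mul_sub, hBA', hA'T]
  have cQ : ∀ Q ∈ 𝒞, N * Q = Q * N := by
    intro Q hQ
    rw [hN, sub_mul, mul_sub, hB, add_mul, mul_add, smul_mul_assoc, mul_smul_comm, hA𝒞 Q hQ,
      hA'𝒞 Q hQ, hC.comm Q hQ]
  -- the kernel of `N`
  let V : Submodule ℂ H := LinearMap.ker (N : H →ₗ[ℂ] H)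
  have hV : ∀ x, x ∈ V ↔ N x = 0 := fun x => LinearMap.mem_ker
  have hVcl : IsClosed (V : Set H) := by
    have : (V : Set H) = {x | N x = 0} := by
      ext x; exact hV x
    rw [this]
    exact isClosed_eq N.continuous continuous_const
  have inv : ∀ C : H →L[ℂ] H, N * C = C * N → ∀ x ∈ V, C x ∈ V := by
    intro C hC x hx
    rw [hV] at hx ⊢
    have : N (C x) = C (N x) := congrArg (fun S : H →L[ℂ] H => S x) hC
    rw [this, hx, map_zero]
  have hVI : Inv 𝒞 V := ⟨hVcl, fun Q hQ => inv Q (cQ Q hQ)⟩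
  have hTs : ∀ x ∈ V, adjoint T x ∈ V := adj_inv hRS hVI hC.mem
  -- the adjoint of `N`
  have hNs : adjoint N = adjoint T - (A - Complex.I • A') := by
    rw [hN, hB, map_sub, map_add, hA]
    congr 1
    rw [sub_eq_add_neg]
    congr 1
    rw [map_smulₛₗ, hA']
    simp
  have hNsV : ∀ x ∈ V, adjoint N x ∈ V := by
    intro x hx
    rw [hNs]
    show adjoint T x - (A x - Complex.I • A' x) ∈ V
    exact V.sub_mem (hTs x hx) (V.sub_mem (inv A cA x hx) (V.smul_mem _ (inv A' cA' x hx)))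
  have hker : ∀ x ∈ V, adjoint N x = 0 := by
    intro x hx
    have h1 : N (adjoint N x) = 0 := (hV _).1 (hNsV x hx)
    have h2 : inner ℂ (adjoint N x) (adjoint N x) = 0 := by
      rw [ContinuousLinearMap.adjoint_inner_left, h1, inner_zero_right]
    exact inner_self_eq_zero.1 h2
  -- `N = 0`
  have hN0 : N = 0 := by
    by_contra hne
    obtain ⟨n, hn⟩ := hn
    have hex : ∃ n : ℕ, N ^ n = 0 := ⟨n, hn⟩
    classical
    obtain ⟨k, hk, hmin⟩ : ∃ k, N ^ k = 0 ∧ ∀ j < k, N ^ j ≠ 0 :=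
      ⟨Nat.find hex, Nat.find_spec hex, fun j hj => Nat.find_min hex hj⟩
    have hk2 : 2 ≤ k := by
      by_contra hlt
      push Not at hlt
      have hk01 : k = 0 ∨ k = 1 := by omega
      rcases hk01 with h | h
      · subst h
        rw [pow_zero] at hk
        apply hne
        rw [← one_mul N, hk, zero_mul]
      · subst h
        rw [pow_one] at hk
        exact hne hk
    obtain ⟨j, rfl⟩ : ∃ j, k = j + 2 := ⟨k - 2, by omega⟩
    refine hmin (j + 1) (by omega) ?_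
    ext x
    have h1 : (N ^ (j + 1)) x ∈ V := by
      rw [hV]
      show (N * N ^ (j + 1)) x = 0
      rw [← pow_succ', hk]
      rfl
    have h2 := hker _ h1
    have h3 : inner ℂ ((N ^ (j + 1)) x) ((N ^ (j + 1)) x) = 0 := by
      have e : (N ^ (j + 1)) x = N ((N ^ j) x) := by rw [pow_succ']; rfl
      conv_lhs => arg 3; rw [e]
      rw [← ContinuousLinearMap.adjoint_inner_left, h2, inner_zero_left]
    exact inner_self_eq_zero.1 h3
  have hTB : T = B := by
    have : T - B = 0 := hN0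
    exact sub_eq_zero.1 this
  rw [hTB]
  have hBs : star B = A - Complex.I • A' := by
    rw [ContinuousLinearMap.star_eq_adjoint, hB, map_add, hA, sub_eq_add_neg]
    congr 1
    rw [map_smulₛₗ, hA']
    simp
  refine ⟨?_⟩
  show star B * B = B * star B
  rw [hBs, hB]
  simp only [sub_mul, mul_sub, add_mul, mul_add, smul_mul_assoc, mul_smul_comm, hAA', smul_add,
    smul_sub]
  abel

/-- **the central version of the theorem on measurable local resolvents** -/
theorem rdC {𝒞 : Set (H →L[ℂ] H)} {T : H →L[ℂ] H} (hRS : RS 𝒞) (hC : Cent 𝒞 T) {σ : ℝ} (hσ : 0 < σ)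
    (hσ1 : σ ≤ 1) (hev : ∀ᵐ z ∂(volume : Measure ℂ), ∀ u : H, z • u - T u = 0 → u = 0)
    (hgT : (Submodule.span ℂ {x : H | Good T σ x}).topologicalClosure = ⊤)
    (hgS : (Submodule.span ℂ
      {y : H | Good (ContinuousLinearMap.adjoint T) σ y}).topologicalClosure = ⊤) :
    IsStarNormal T := by
  have h7 := RD7.main
  have h8 := RD8b.main
  have h10 := RD10.main
  have hsv : SV T := svC hRS hC
  have hPT : ∀ K, PP T K * T = T * PP T K := fun K => PP_T hRS hC K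
  have hPP : ∀ K K', PP T K * PP T K' = PP T K' * PP T K := fun K K' =>
    PP_Q T K _ (Det.PP_adj T K') (hPT K')
  obtain ⟨R, hR⟩ : ∃ R : ℝ, R = ‖T‖ + 1 := ⟨_, rfl⟩
  have hR0 : 0 < R := by
    have := norm_nonneg T
    linarith
  have hzero : ∀ (ℓ : ℂ → ℝ), (∀ z, |ℓ z| ≤ ‖z‖) → ∀ t, t < -R → PP T {z | ℓ z ≤ t} = 0 := by
    intro ℓ hℓ t ht
    refine (h10 H T _).1 ?_ hsv
    rw [Set.disjoint_left]
    intro z hz hz'
    rw [mem_closedBall, dist_zero_right] at hz'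
    have k1 : ℓ z ≤ t := hz
    have k2 := (abs_le.mp (hℓ z)).1
    linarith
  have hone : ∀ (ℓ : ℂ → ℝ), (∀ z, |ℓ z| ≤ ‖z‖) → ∀ t, R ≤ t → PP T {z | ℓ z ≤ t} = 1 := by
    intro ℓ hℓ t ht
    refine (h10 H T _).2 ?_
    intro z hz'
    rw [mem_closedBall, dist_zero_right] at hz'
    have k2 := (abs_le.mp (hℓ z)).2
    change ℓ z ≤ t
    linarith
  have hfam : ∀ (ℓ : ℂ → ℝ), (∀ z, |ℓ z| ≤ ‖z‖) → ∃ A : H →L[ℂ] H,
      ContinuousLinearMap.adjoint A = A ∧
      (∀ Q : H →L[ℂ] H, (∀ t : ℝ, Q * PP T {z | ℓ z ≤ t} = PP T {z | ℓ z ≤ t} * Q) →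
        Q * A = A * Q) ∧
      ∀ (s t : ℝ) (x : H), s ≤ t →
        ‖A ((PP T {z | ℓ z ≤ t} - PP T {z | ℓ z ≤ s}) x) -
          t • (PP T {z | ℓ z ≤ t} - PP T {z | ℓ z ≤ s}) x‖ ≤
          (t - s) * ‖(PP T {z | ℓ z ≤ t} - PP T {z | ℓ z ≤ s}) x‖ := by
    intro ℓ hℓ
    have hsub : ∀ s t : ℝ, s ≤ t → {z | ℓ z ≤ s} ⊆ {z | ℓ z ≤ t} := by
      intro s t hst z hz
      have k1 : ℓ z ≤ s := hz
      change ℓ z ≤ t
      linarith
    exact h7 H (fun t => PP T {z | ℓ z ≤ t}) R hR0 (fun t => Det.PP_adj T _)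
      (fun s t hst => Det.PP_mono' T (hsub s t hst)) (fun s t hst => Det.PP_mono T (hsub s t hst))
      (hzero ℓ hℓ) (hone ℓ hℓ)
  obtain ⟨A, hA1, hA2, hA3⟩ := hfam Complex.re Complex.abs_re_le_norm
  obtain ⟨B, hB1, hB2, hB3⟩ := hfam Complex.im Complex.abs_im_le_norm
  have hAK : ∀ K, PP T K * A = A * PP T K := fun K => hA2 _ fun t => hPP _ _
  have hBK : ∀ K, PP T K * B = B * PP T K := fun K => hB2 _ fun t => hPP _ _
  have hAT : A * T = T * A := (hA2 T fun t => (hPT _).symm).symm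
  have hBT : B * T = T * B := (hB2 T fun t => (hPT _).symm).symm
  have hAB : A * B = B * A := (hA2 B fun t => (hBK _).symm).symm
  have hn := h8 H T A B (fun t => PP T {z | z.re ≤ t}) (fun t => PP T {z | z.im ≤ t}) R
    (2 / σ - 1) {x | Good T σ x} hR0 (hzero _ Complex.abs_re_le_norm)
    (hone _ Complex.abs_re_le_norm) (hzero _ Complex.abs_im_le_norm)
    (hone _ Complex.abs_im_le_norm) (fun s t => hPP _ _) (fun t => hPT _) (fun t => hPT _)
    (fun t => hAK _) (fun t => hAK _) (fun t => hBK _) (fun t => hBK _) hAT hBT hAB hA3 hB3 hgT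
    (fun x hx j => boxC hRS hC hσ hσ1 hev hx hgS R j)
  refine nilC hRS hC hA1 hB1 ?_ ?_ hAB hn
  · intro Q hQ
    exact (hA2 Q fun t => ((PP_C hRS hC _ Q hQ).1).symm).symm
  · intro Q hQ
    exact (hB2 Q fun t => ((PP_C hRS hC _ Q hQ).1).symm).symm

end Pool.Agent.J4.H86.CR
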