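import Pool.Agent.W706.HIR.Final

/-!
Sets `𝒞` of operators for which the orthogonal complement of every closed invariant subspace is
invariant, and operators `R ∈ 𝒞` commuting with `𝒞`.
-/

set_option autoImplicit false
set_option linter.unusedSectionVars false

open scoped InnerProductSpace

namespace Pool.Agent.J4.H86.CR

open Pool.Agent.W402.HI Pool.Agent.W706.HIR

variable {H : Type} [NormedAddCommGroup H] [InnerProductSpace ℂ H] [CompleteSpace H]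

/-- closed subspaces invariant under `𝒞` -/
def Inv (𝒞 : Set (H →L[ℂ] H)) (V : Submodule ℂ H) : Prop :=
  IsClosed (V : Set H) ∧ ∀ Q ∈ 𝒞, ∀ x ∈ V, Q x ∈ V

/-- the orthogonal complement of an invariant subspace is invariant -/
def RS (𝒞 : Set (H →L[ℂ] H)) : Prop := ∀ V : Submodule ℂ H, Inv 𝒞 V → Inv 𝒞 Vᗮ

/-- `R` is in `𝒞` and commutes with `𝒞` -/
structure Cent (𝒞 : Set (H →L[ℂ] H)) (R : H →L[ℂ] H) : Prop where
  mem : R ∈ 𝒞
  comm : ∀ Q ∈ 𝒞, Q * R = R * Q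

theorem inv_top (𝒞 : Set (H →L[ℂ] H)) : Inv 𝒞 (⊤ : Submodule ℂ H) :=
  ⟨isClosed_univ, fun _ _ _ _ => trivial⟩

theorem inv_inf {𝒞 : Set (H →L[ℂ] H)} {V W : Submodule ℂ H} (h1 : Inv 𝒞 V) (h2 : Inv 𝒞 W) :
    Inv 𝒞 (V ⊓ W) :=
  ⟨h1.1.inter h2.1, fun Q hQ x hx => ⟨h1.2 Q hQ x hx.1, h2.2 Q hQ x hx.2⟩⟩

theorem inv_sInf {𝒞 : Set (H →L[ℂ] H)} (s : Set (Submodule ℂ H)) (h : ∀ V ∈ s, Inv 𝒞 V) :
    Inv 𝒞 (sInf s) := by
  refine ⟨?_, ?_⟩
  · rw [Submodule.coe_sInf]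
    exact isClosed_biInter fun V hV => (h V hV).1
  · intro Q hQ x hx
    rw [Submodule.mem_sInf] at hx ⊢
    intro V hV
    exact (h V hV).2 Q hQ x (hx V hV)

theorem hyper_inv {𝒞 : Set (H →L[ℂ] H)} {R : H →L[ℂ] H} (hR : Cent 𝒞 R) {V : Submodule ℂ H}
    (hV : Hyper R V) : Inv 𝒞 V :=
  ⟨hV.1, fun Q hQ => hV.2 Q (hR.comm Q hQ)⟩

/-- invariant subspaces are invariant under the adjoints -/
theorem adj_inv {𝒞 : Set (H →L[ℂ] H)} (hRS : RS 𝒞) {V : Submodule ℂ H} (hV : Inv 𝒞 V)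
    {Q : H →L[ℂ] H} (hQ : Q ∈ 𝒞) : ∀ x ∈ V, ContinuousLinearMap.adjoint Q x ∈ V := by
  intro x hx
  have : CompleteSpace V := hV.1.completeSpace_coe
  have h1 : ContinuousLinearMap.adjoint Q x ∈ Vᗮᗮ := by
    rw [Submodule.mem_orthogonal]
    intro y hy
    rw [ContinuousLinearMap.adjoint_inner_right]
    exact (Submodule.mem_orthogonal' V _).1 ((hRS V hV).2 Q hQ y hy) x hx
  rwa [Submodule.orthogonal_orthogonal] at h1

/-- the commutant of `𝒞` and its adjoints -/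
def Mm (𝒞 : Set (H →L[ℂ] H)) (B : H →L[ℂ] H) : Prop :=
  ∀ Q ∈ 𝒞, B * Q = Q * B ∧ B * ContinuousLinearMap.adjoint Q = ContinuousLinearMap.adjoint Q * B

/-- the von Neumann algebra of `𝒞` -/
def Nn (𝒞 : Set (H →L[ℂ] H)) (A : H →L[ℂ] H) : Prop := ∀ B, Mm 𝒞 B → A * B = B * A

theorem Mm.adj {𝒞 : Set (H →L[ℂ] H)} {B : H →L[ℂ] H} (h : Mm 𝒞 B) :
    Mm 𝒞 (ContinuousLinearMap.adjoint B) := by
  intro Q hQ
  obtain ⟨h1, h2⟩ := h Q hQ
  constructor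
  · have := congrArg star h2
    simp only [← ContinuousLinearMap.star_eq_adjoint, star_mul, star_star] at this ⊢
    exact this.symm
  · have := congrArg star h1
    simp only [← ContinuousLinearMap.star_eq_adjoint, star_mul] at this ⊢
    exact this.symm

theorem proj_Mm {𝒞 : Set (H →L[ℂ] H)} (hRS : RS 𝒞) {V : Submodule ℂ H} (hV : Inv 𝒞 V)
    [V.HasOrthogonalProjection] : Mm 𝒞 V.starProjection := by
  intro Q hQ
  have h1 := hV.2 Q hQ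
  have h2 := adj_inv hRS hV hQ
  exact ⟨proj_comm h1 h2, proj_comm h2 (by rw [ContinuousLinearMap.adjoint_adjoint]; exact h1)⟩

theorem Nn.of_mem {𝒞 : Set (H →L[ℂ] H)} {Q : H →L[ℂ] H} (hQ : Q ∈ 𝒞) : Nn 𝒞 Q :=
  fun _ hB => (hB Q hQ).1.symm

theorem Nn.adj {𝒞 : Set (H →L[ℂ] H)} {A : H →L[ℂ] H} (h : Nn 𝒞 A) :
    Nn 𝒞 (ContinuousLinearMap.adjoint A) := by
  intro B hB
  have := congrArg star (h _ hB.adj)
  simp only [← ContinuousLinearMap.star_eq_adjoint, star_mul, star_star] at this ⊢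
  exact this.symm

theorem Nn.mul {𝒞 : Set (H →L[ℂ] H)} {A A' : H →L[ℂ] H} (h : Nn 𝒞 A) (h' : Nn 𝒞 A') :
    Nn 𝒞 (A * A') := by
  intro B hB
  rw [mul_assoc, h' B hB, ← mul_assoc, h B hB, mul_assoc]

theorem Nn.add {𝒞 : Set (H →L[ℂ] H)} {A A' : H →L[ℂ] H} (h : Nn 𝒞 A) (h' : Nn 𝒞 A') :
    Nn 𝒞 (A + A') := by
  intro B hB
  rw [add_mul, mul_add, h B hB, h' B hB]

theorem Nn.sub {𝒞 : Set (H →L[ℂ] H)} {A A' : H →L[ℂ] H} (h : Nn 𝒞 A) (h' : Nn 𝒞 A') :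
    Nn 𝒞 (A - A') := by
  intro B hB
  rw [sub_mul, mul_sub, h B hB, h' B hB]

theorem Nn.smul {𝒞 : Set (H →L[ℂ] H)} {A : H →L[ℂ] H} (h : Nn 𝒞 A) (c : ℂ) : Nn 𝒞 (c • A) := by
  intro B hB
  rw [smul_mul_assoc, mul_smul_comm, h B hB]

theorem Nn.one (𝒞 : Set (H →L[ℂ] H)) : Nn 𝒞 (1 : H →L[ℂ] H) := by
  intro B _
  rw [one_mul, mul_one]

/-- the resolvent is in the von Neumann algebra -/
theorem Nn.resolvent {𝒞 : Set (H →L[ℂ] H)} {A : H →L[ℂ] H} (h : Nn 𝒞 A) {z : ℂ}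
    (hz : z ∈ resolventSet ℂ A) : Nn 𝒞 (resolvent A z) := by
  intro B hB
  obtain ⟨h1, h2⟩ := resolvent_mul hz
  set G := _root_.resolvent A z with hG
  have h3 : B * (z • (1 : H →L[ℂ] H) - A) = (z • (1 : H →L[ℂ] H) - A) * B := by
    rw [mul_sub, sub_mul, h B hB, mul_smul_comm, smul_mul_assoc, one_mul, mul_one]
  calc G * B = G * B * ((z • (1 : H →L[ℂ] H) - A) * G) := by rw [h1, mul_one]
    _ = G * (B * (z • (1 : H →L[ℂ] H) - A)) * G := by noncomm_ring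
    _ = (G * (z • (1 : H →L[ℂ] H) - A)) * B * G := by rw [h3]; noncomm_ring
    _ = B * G := by rw [h2, one_mul]

/-- invariant subspaces are invariant under the von Neumann algebra -/
theorem Nn.inv {𝒞 : Set (H →L[ℂ] H)} (hRS : RS 𝒞) {V : Submodule ℂ H} (hV : Inv 𝒞 V)
    {A : H →L[ℂ] H} (hA : Nn 𝒞 A) : ∀ x ∈ V, A x ∈ V := by
  intro x hx
  have : CompleteSpace V := hV.1.completeSpace_coe
  have h1 := hA _ (proj_Mm hRS hV)
  have h2 := congrArg (fun L : H →L[ℂ] H => L x) h1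
  simp only [mul_apply_eq_comp] at h2
  rw [Submodule.starProjection_eq_self_iff.2 hx] at h2
  rw [h2]
  exact V.starProjection_apply_mem _

/-- eigenvectors of `R` are eigenvectors of the adjoint -/
theorem adj_F' {𝒞 : Set (H →L[ℂ] H)} (hRS : RS 𝒞) {R : H →L[ℂ] H} (hR : Cent 𝒞 R) {z : ℂ} {x : H}
    (hx : x ∈ F R z) : ContinuousLinearMap.adjoint R x = (starRingEnd ℂ z) • x := by
  have h1 : ContinuousLinearMap.adjoint R x - (starRingEnd ℂ z) • x ∈ F R z :=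
    (F R z).sub_mem (adj_inv hRS (hyper_inv hR (hyper_F R z)) hR.mem x hx) ((F R z).smul_mem _ hx)
  have h2 : ∀ y ∈ F R z,
      ⟪ContinuousLinearMap.adjoint R x - (starRingEnd ℂ z) • x, y⟫_ℂ = 0 := by
    intro y hy
    rw [inner_sub_left, ContinuousLinearMap.adjoint_inner_left, mem_F.1 hy, inner_smul_right,
      inner_smul_left, RingHomCompTriple.comp_apply, RingHom.id_apply, sub_self]
  have h3 := h2 _ h1
  rw [inner_self_eq_zero] at h3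
  exact sub_eq_zero.1 h3

theorem orthFam' {𝒞 : Set (H →L[ℂ] H)} (hRS : RS 𝒞) {R : H →L[ℂ] H} (hR : Cent 𝒞 R) :
    OrthogonalFamily ℂ (fun z : ℂ => F R z) (fun z => (F R z).subtypeₗᵢ) := by
  intro z w hzw x y
  change ⟪(x : H), (y : H)⟫_ℂ = 0
  have h1 : ⟪ContinuousLinearMap.adjoint R (x : H), (y : H)⟫_ℂ = ⟪(x : H), R (y : H)⟫_ℂ :=
    ContinuousLinearMap.adjoint_inner_left _ _ _
  rw [adj_F' hRS hR x.2, mem_F.1 y.2, inner_smul_left, inner_smul_right,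
    RingHomCompTriple.comp_apply, RingHom.id_apply] at h1
  have h2 : (z - w) * ⟪(x : H), (y : H)⟫_ℂ = 0 := by rw [sub_mul, h1, sub_self]
  exact (mul_eq_zero.1 h2).resolve_left (sub_ne_zero.2 hzw)

/-- the restrictions of the elements of `𝒞` -/
def res (𝒞 : Set (H →L[ℂ] H)) (V : Submodule ℂ H) : Set (V →L[ℂ] V) :=
  {A | ∃ Q ∈ 𝒞, ∀ x : V, ((A x : V) : H) = Q x}

theorem res_mem {𝒞 : Set (H →L[ℂ] H)} {V : Submodule ℂ H} {Q : H →L[ℂ] H} (hQ : Q ∈ 𝒞)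
    (h : ∀ x ∈ V, Q x ∈ V) : Q.restrict h ∈ res 𝒞 V := ⟨Q, hQ, fun _ => rfl⟩

theorem inv_map {𝒞 : Set (H →L[ℂ] H)} {V : Submodule ℂ H} (hV : Inv 𝒞 V) {W : Submodule ℂ V}
    (hW : Inv (res 𝒞 V) W) : Inv 𝒞 (W.map V.subtype) := by
  refine ⟨?_, ?_⟩
  · rw [Submodule.map_coe]
    exact (hV.1.isClosedEmbedding_subtypeVal.isClosedMap) _ hW.1
  · intro Q hQ x hx
    obtain ⟨y, hy, rfl⟩ := Submodule.mem_map.1 hx
    have h1 := hW.2 _ (res_mem hQ (hV.2 Q hQ)) y hy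
    exact Submodule.mem_map.2 ⟨_, h1, rfl⟩

theorem res_RS {𝒞 : Set (H →L[ℂ] H)} (hRS : RS 𝒞) {V : Submodule ℂ H} (hV : Inv 𝒞 V)
    [CompleteSpace V] : RS (res 𝒞 V) := by
  intro W hW
  refine ⟨W.isClosed_orthogonal, ?_⟩
  rintro A ⟨Q, hQ, hA⟩ x hx
  have h1 := hRS _ (inv_map hV hW)
  have h2 : (x : H) ∈ (W.map V.subtype)ᗮ := by
    rw [Submodule.mem_orthogonal] at hx ⊢
    rintro u hu
    obtain ⟨y, hy, rfl⟩ := Submodule.mem_map.1 hu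
    exact hx y hy
  have h3 := h1.2 Q hQ _ h2
  rw [Submodule.mem_orthogonal] at h3 ⊢
  intro u hu
  have h4 := h3 (u : H) (Submodule.mem_map.2 ⟨u, hu, rfl⟩)
  rw [← hA x] at h4
  exact h4

theorem res_Cent {𝒞 : Set (H →L[ℂ] H)} {R : H →L[ℂ] H} (hR : Cent 𝒞 R) {V : Submodule ℂ H}
    (h : ∀ x ∈ V, R x ∈ V) : Cent (res 𝒞 V) (R.restrict h) := by
  refine ⟨res_mem hR.mem h, ?_⟩
  rintro A ⟨Q, hQ, hA⟩
  ext x
  have h1 := congrArg (fun L : H →L[ℂ] H => L (x : H)) (hR.comm Q hQ)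
  simp only [mul_apply_eq_comp] at h1
  change ((A (R.restrict h x) : V) : H) = ((R.restrict h (A x) : V) : H)
  rw [hA]
  change Q (R x) = R ((A x : V) : H)
  rw [hA, h1]

/-- a reductive operator -/
theorem rs_reductive {T : H →L[ℂ] H} (hT : Reductive T) : RS {T} := by
  intro V hV
  refine ⟨V.isClosed_orthogonal, ?_⟩
  rintro Q rfl
  exact orth_inv (hT V hV.1 (hV.2 Q rfl))

/-- the commutant of a reductive operator -/
theorem rs_comm {T : H →L[ℂ] H} (hT : Reductive T) : RS {Q | Q * T = T * Q} := by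
  intro V hV
  have h1 : Hyper T V := ⟨hV.1, fun Q hQ => hV.2 Q hQ⟩
  have h2 := hyper_orth hT h1
  exact ⟨h2.1, fun Q hQ => h2.2 Q hQ⟩

end Pool.Agent.J4.H86.CR
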